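import Pool.Agent.Helper49.RH.Defs

/-!
# Statements (for the division of the work)
-/

set_option autoImplicit false

namespace Pool.Agent.Helper49.RH

open Pool.Agent.NPC Matrix
open Pool.Agent.Helper6K1.BN (prob InRP InBPP)
open Pool.Agent.Helper49.HS (rv toV Halfspace)

/-- helper97: file `RH/Conv.lean`, theorem `rhalfspace_of_halfspace : Stm1` -/
def Stm1 : Prop := ∀ L : Set (List Bool), Halfspace L → RHalfspace L

/-- helper97: file `RH/Conv.lean`, theorem `rhalfspace_of_inRP : Stm2` -/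
def Stm2 : Prop := ∀ L : Set (List Bool), InRP L → RHalfspace L

/-- helper80: file `RH/Cum.lean`, theorem `cumR_of_rhalfspace : Stm3` -/
def Stm3 : Prop := ∀ L : Set (List Bool), RHalfspace L → ∃ ψ dp ρ, CumR ψ dp ρ L

/-- helper80: file `RH/Cum.lean`, theorem `cumR_of_reduces : Stm4` -/
def Stm4 : Prop := ∀ (A L : Set (List Bool)), Reduces L A → (∃ ψ dp ρ, CumR ψ dp ρ A) →
  ∃ ψ dp ρ, CumR ψ dp ρ L

end Pool.Agent.Helper49.RH
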