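import Pool.Agent.Helper49.RH.Defs
import Pool.Agent.Helper49.RH.Stm

/-!
# Halfspaces are randomised halfspaces
-/

set_option autoImplicit false

namespace Pool.Agent.Helper49.RH

open Pool.Agent.NPC
open Pool.Agent.Helper6K1.BN (prob prob_eq BL_nonempty)
open Pool.Agent.Helper49.HS (Halfspace)

theorem rhalfspace_of_halfspace : Stm1 := by
  classical
  rintro L ⟨φ, ⟨F, hF, hFφ⟩, hw⟩
  have hφ : NPC.Poly φ := by
    have h2 : NPC.Poly (fun x : List Bool => bits (φ x)) := by
      have h3 : NPC.Poly F := PIso.poly_iff.2 hF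
      exact h3.congr fun x => hFφ x
    have h4 : NPC.Poly (fun x : List Bool => unbits (List ℤ) (bits (φ x))) := poly_unbits.comp h2
    have h5 := NPC.Poly.optGetD (o := fun x : List Bool => unbits (List ℤ) (bits (φ x)))
      (g := fun _ => ([] : List ℤ)) h4 (NPC.Poly.const _)
    exact h5.congr fun x => by rw [unbits_bits]; rfl
  have hb : NPC.Poly (fun y : List Bool =>
      bits (φ ((unbits (List Bool × List Unit × List Bool) y).elim [] fun a => a.1))) := by
    refine H579R2.Spt.bits_poly.comp (hφ.comp ?_)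
    exact NPC.Poly.optElim (o := fun y : List Bool => unbits (List Bool × List Unit × List Bool) y)
      (g := fun _ => ([] : List Bool)) (h := fun _ a => a.1) poly_unbits (NPC.Poly.const _)
      (NPC.Poly.fst (NPC.Poly.snd NPC.Poly.id))
  refine ⟨fun x _ _ => φ x, 0, ⟨_, PIso.poly_iff.1 hb, fun x e r => ?_⟩, fun n e => ?_⟩
  · rw [unbits_bits]
    rfl
  · obtain ⟨w, hw2⟩ := hw n
    refine ⟨w, fun x hx => ?_⟩
    have h1 : (1 : ℝ) ≤ prob ((0 : Polynomial ℕ).eval (n + e)) fun _ => (x ∈ L ↔
        0 < ∑ i ∈ Finset.range (φ x).length, w i * ((φ x).getD i 0 : ℤ)) := by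
      rw [prob_eq]
      refine Finset.le_expect (BL_nonempty _) fun r _ => ?_
      rw [if_pos (hw2 x hx)]
    have h2 : (0 : ℝ) ≤ 1 / 2 ^ e := by positivity
    linarith

end Pool.Agent.Helper49.RH
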