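import Pool.Agent.Helper49.RH.Stm
import Pool.Agent.Helper6K1.BN.T1c

/-!
# Languages in `RP` are randomised halfspaces
-/

set_option autoImplicit false

namespace Pool.Agent.Helper49.RH

open Finset BigOperators
open Pool.Agent.NPC
open Pool.Agent.H579R2.Spt (BL mem_BL rowsL rowsL_poly bits_poly)
open Pool.Agent.Helper6K1.BN (prob prob_eq prob_mono BL_nonempty InRP InBPP expect_any expect_rows
  BLL expect_BL_zero poly_pairBits)

/-- some block of the random string makes the machine accept -/
def anyG (V : List Bool → List Bool) (ρ : Polynomial ℕ) (x : List Bool) (e : ℕ) (r : List Bool) :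
    Bool :=
  (rowsL (ρ.eval x.length) e r).any fun b => decide (V (pairBits x b) = [true])

/-- the feature -/
def phiG (V : List Bool → List Bool) (ρ : Polynomial ℕ) (x : List Bool) (e : ℕ) (r : List Bool) :
    List ℤ :=
  bif anyG V ρ x e r then [1] else []

theorem anyG_poly {V : List Bool → List Bool} (hV : PolyTime V) (ρ : Polynomial ℕ) :
    NPC.Poly (fun a : List Bool × List Unit × List Bool => anyG V ρ a.1 a.2.1.length a.2.2) := by
  have hV' : NPC.Poly V := PIso.poly_iff.2 hV
  have e1 : NPC.Poly (fun a : List Bool × List Unit × List Bool => a.1) := NPC.Poly.fst NPC.Poly.id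
  have e2 : NPC.Poly (fun a : List Bool × List Unit × List Bool => a.2.1) :=
    NPC.Poly.fst (NPC.Poly.snd NPC.Poly.id)
  have e3 : NPC.Poly (fun a : List Bool × List Unit × List Bool => a.2.2) :=
    NPC.Poly.snd (NPC.Poly.snd NPC.Poly.id)
  have e4 : NPC.Poly (fun a : List Bool × List Unit × List Bool =>
      rowsL (ρ.eval a.1.length) a.2.1.length a.2.2) :=
    rowsL_poly (((UPoly.length e1).eval ρ).toPoly) (UPoly.length e2) e3
  have e5 : NPC.Poly (fun q : (List Bool × List Unit × List Bool) × List Bool =>
      decide (V (pairBits q.1.1 q.2) = [true])) :=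
    NPC.Poly.decide_eq (hV'.comp (poly_pairBits (NPC.Poly.fst (NPC.Poly.fst NPC.Poly.id))
      (NPC.Poly.snd NPC.Poly.id))) (NPC.Poly.const [true])
  exact NPC.Poly.any (l := fun a : List Bool × List Unit × List Bool =>
      rowsL (ρ.eval a.1.length) a.2.1.length a.2.2)
    (p := fun a b => decide (V (pairBits a.1 b) = [true])) e4 e5

theorem rhalfspace_of_inRP : Stm2 := by
  classical
  rintro L ⟨V, ρ, hV, hL⟩
  have hφ : NPC.Poly (fun a : List Bool × List Unit × List Bool =>
      phiG V ρ a.1 a.2.1.length a.2.2) :=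
    NPC.Poly.cond (b := fun a : List Bool × List Unit × List Bool =>
      anyG V ρ a.1 a.2.1.length a.2.2) (anyG_poly hV ρ) (NPC.Poly.const _) (NPC.Poly.const _)
  have hb : NPC.Poly (fun y : List Bool =>
      bits ((unbits (List Bool × List Unit × List Bool) y).elim [] fun a =>
        phiG V ρ a.1 a.2.1.length a.2.2)) := by
    refine bits_poly.comp ?_
    exact NPC.Poly.optElim (o := fun y : List Bool => unbits (List Bool × List Unit × List Bool) y)
      (g := fun _ => ([] : List ℤ)) (h := fun _ a => phiG V ρ a.1 a.2.1.length a.2.2)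
      poly_unbits (NPC.Poly.const _) (hφ.comp (NPC.Poly.snd NPC.Poly.id))
  refine ⟨phiG V ρ, Polynomial.X * ρ, ⟨_, PIso.poly_iff.1 hb, fun x e r => ?_⟩, fun n e => ?_⟩
  · rw [unbits_bits]
    simp
  · refine ⟨fun _ => 1, fun x hx => ?_⟩
    have hsum : ∀ r, (0 < ∑ i ∈ Finset.range (phiG V ρ x e r).length,
        (1 : ℝ) * ((phiG V ρ x e r).getD i 0 : ℤ)) ↔ anyG V ρ x e r = true := fun r => by
      unfold phiG
      cases h : anyG V ρ x e r <;> simp
    have hle : e * ρ.eval n ≤ (Polynomial.X * ρ).eval (n + e) := by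
      rw [Polynomial.eval_mul, Polynomial.eval_X]
      exact Nat.mul_le_mul (Nat.le_add_left e n) (eval_mono ρ (Nat.le_add_right n e))
    obtain ⟨s, hs⟩ := Nat.exists_eq_add_of_le hle
    by_cases hxL : x ∈ L
    · have h1 : prob ((Polynomial.X * ρ).eval (n + e)) (fun r => anyG V ρ x e r = true) ≤
          prob ((Polynomial.X * ρ).eval (n + e)) fun r => (x ∈ L ↔
            0 < ∑ i ∈ Finset.range (phiG V ρ x e r).length,
              (1 : ℝ) * ((phiG V ρ x e r).getD i 0 : ℤ)) :=
        prob_mono fun r _ hr => ⟨fun _ => (hsum r).2 hr, fun _ => hxL⟩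
      refine le_trans ?_ h1
      have h2 : prob ((Polynomial.X * ρ).eval (n + e)) (fun r => anyG V ρ x e r = true) =
          1 - (𝔼 u ∈ BL (ρ.eval n),
            (if decide (V (pairBits x u) = [true]) then (0 : ℝ) else 1)) ^ e := by
        rw [prob_eq, hs, ← expect_any, eq_sub_iff_add_eq]
        have h6 := expect_rows (ρ.eval n) e s
          (fun l _ => if (l.any fun r => decide (V (pairBits x r) = [true])) then (0 : ℝ) else 1)
        have h7 : ∀ l ∈ BLL (ρ.eval n) e, 𝔼 v ∈ BL s,
            (if (l.any fun r => decide (V (pairBits x r) = [true])) then (0 : ℝ) else 1) =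
            if (l.any fun r => decide (V (pairBits x r) = [true])) then (0 : ℝ) else 1 :=
          fun l _ => expect_const (BL_nonempty s) _
        rw [expect_congr rfl h7] at h6
        rw [← h6, ← expect_add_distrib,
          ← expect_const (BL_nonempty (e * ρ.eval n + s)) (1 : ℝ)]
        refine expect_congr rfl fun r _ => ?_
        unfold anyG
        rw [hx, expect_const (BL_nonempty _)]
        split_ifs <;> norm_num
      have h3 : (𝔼 u ∈ BL (ρ.eval n),
          (if decide (V (pairBits x u) = [true]) then (0 : ℝ) else 1)) ≤ 1 / 2 := by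
        have h4 := (hL x).1 hxL
        rw [hx] at h4
        have h5 : (𝔼 u ∈ BL (ρ.eval n),
            (if decide (V (pairBits x u) = [true]) then (0 : ℝ) else 1)) +
            prob (ρ.eval n) (fun u => V (pairBits x u) = [true]) = 1 := by
          rw [prob_eq, ← expect_add_distrib, ← expect_const (BL_nonempty (ρ.eval n)) (1 : ℝ)]
          refine expect_congr rfl fun r _ => ?_
          rw [expect_const (BL_nonempty _)]
          by_cases h : V (pairBits x r) = [true] <;> simp [h]
        linarith
      have h0 : (0 : ℝ) ≤ 𝔼 u ∈ BL (ρ.eval n),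
          (if decide (V (pairBits x u) = [true]) then (0 : ℝ) else 1) :=
        expect_nonneg fun u _ => by split_ifs <;> norm_num
      rw [h2]
      have h4 : (𝔼 u ∈ BL (ρ.eval n),
          (if decide (V (pairBits x u) = [true]) then (0 : ℝ) else 1)) ^ e ≤ (1 / 2) ^ e :=
        pow_le_pow_left₀ h0 h3 e
      rw [one_div_pow] at h4
      linarith
    · have h1 : (1 : ℝ) ≤ prob ((Polynomial.X * ρ).eval (n + e)) fun r => (x ∈ L ↔
          0 < ∑ i ∈ Finset.range (phiG V ρ x e r).length,
            (1 : ℝ) * ((phiG V ρ x e r).getD i 0 : ℤ)) := by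
        rw [prob_eq]
        refine Finset.le_expect (BL_nonempty _) fun r hr => ?_
        rw [if_pos]
        rw [hsum r]
        refine iff_of_false hxL fun hany => ?_
        unfold anyG at hany
        rw [List.any_eq_true] at hany
        obtain ⟨b, hb, hV2⟩ := hany
        rw [decide_eq_true_eq] at hV2
        refine (hL x).2 hxL b ?_ hV2
        unfold rowsL at hb
        rw [List.mem_map] at hb
        obtain ⟨i, hi, rfl⟩ := hb
        rw [List.mem_range] at hi
        rw [hx, List.length_take, List.length_drop, mem_BL.1 hr, hs]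
        have : (i + 1) * ρ.eval n ≤ e * ρ.eval n := Nat.mul_le_mul_right _ hi
        rw [add_mul, one_mul] at this
        omega
      have h2 : (0 : ℝ) ≤ 1 / 2 ^ e := by positivity
      linarith

theorem rhalfspace_of_BPP (h : ∀ L : Set (List Bool), InNP L → InBPP L) (L : Set (List Bool))
    (hL : InNP L) : RHalfspace L :=
  rhalfspace_of_inRP L
    (Pool.Agent.Helper6K1.BN.dist_BPP
      (fun L' hL' => Pool.Agent.Helper6K1.BN.BPP_dist (h L' hL')) hL).2

end Pool.Agent.Helper49.RH
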