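import Pool.Agent.Helper49.RH.Find

/-!
# The search finds the unique certificate with high probability
-/

set_option autoImplicit false

namespace Pool.Agent.Helper49.RH

open Pool.Agent.NPC Matrix
open Pool.Agent.H579R2.Spt (sgn tests mem_tests lab ip ip_poly cd ver ver_poly ver_iff
  prm prm_spec prm_poly two_pow_size_poly BL mem_BL)
open Pool.Agent.Helper6K1.BN (mm Unq uncd uncd_pad uncd_poly prob prob_eq prob_mono Good sg
  engine_BPP engine_RP InBPP InRP BL_nonempty)
open Pool.Agent.Helper49.HS hiding cd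
open Pool.Agent.Helper49.KM (two_pow_size_le)

variable {dp eN p ρ : Polynomial ℕ}

theorem PPR_eval (b : ℕ) : (PPR dp eN p).eval b = 8 * (dR dp p).eval b * (p.eval b + 1) *
    ((dR dp p).eval b * (lamR dp eN p).eval b + 1) + 1 := by
  simp [PPR]

theorem PBR_eval (b : ℕ) : (PBR dp eN p).eval b = 4 * (PPR dp eN p).eval b +
    2 * ((p.eval b + 2) * ((2 * (PPR dp eN p).eval b) * (4 * (PPR dp eN p).eval b))) := by
  simp [PBR]

theorem prR_spec (b : ℕ) : (prR dp eN p b).Prime ∧ (PPR dp eN p).eval b < prR dp eN p b ∧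
    prR dp eN p b ≤ 2 * (PPR dp eN p).eval b :=
  prm_spec (m := (PPR dp eN p).eval b) (by rw [PPR_eval]; omega)

theorem candR_mem {ψ : ℕ → List Bool → List Bool → List ℤ} {C : ℕ}
    (hd1 : ∀ N, 1 ≤ dp.eval N)
    (hE : ∀ N (y r : List Bool), y.length ≤ N → r.length = ρ.eval N → sz (ψ N y r) ≤ eN.eval N)
    {x : List Bool} {rows : List (List Bool)} {hh M : List Bool}
    (h1 : rows.length ≤ mm p x + 1) (h2 : ∀ u ∈ rows, u.length = mm p x)
    (hM : M.length = mm p x)
    {b N : ℕ} (hbdef : b = x.length + C) (hb : (PBR dp eN p).eval b < 2 ^ b)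
    (hN : N = (PNR p).eval b) (hhl : hh.length = ρ.eval N)
    {z : Fin (dp.eval N) → ℝ}
    (hz : ∀ j ≤ mm p x, ∀ t ∈ tests (prR dp eN p b) (2 ^ Nat.size (prR dp eN p b)),
      1 ≤ ((sgn (lab (prR dp eN p b) t (M.take j)) : ℤ) : ℝ) *
        (z ⬝ᵥ rv (toV _ (ψ N (qs x rows (prR dp eN p b) j t) hh)))) :
    M ∈ candR dp eN p ψ C (x, rows, hh) := by
  set P := prR dp eN p b with hP
  obtain ⟨hP1, hP2, hP3⟩ := prR_spec (dp := dp) (eN := eN) (p := p) b
  rw [← hP] at hP1 hP2 hP3
  have hBe := PBR_eval (dp := dp) (eN := eN) (p := p) b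
  have hPe := PPR_eval (dp := dp) (eN := eN) (p := p) b
  have hT1 : P < 2 ^ Nat.size P := Nat.lt_size_self P
  have hT2 := two_pow_size_le hP1.pos
  have hPlt : P < 2 ^ b := by omega
  have hTlt : 2 ^ Nat.size P < 2 ^ b := by omega
  have hdd : (dR dp p).eval b = dp.eval N := by rw [dR, Polynomial.eval_comp, hN]
  have hee : (eR eN p).eval b = eN.eval N := by rw [eR, Polynomial.eval_comp, hN]
  have hhe : (hR dp eN p).eval b = 3 * dp.eval N + dp.eval N * dp.eval N + eN.eval N * dp.eval N := by
    rw [← hdd, ← hee]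
    simp [hR]
  have hle : (lamR dp eN p).eval b = 2 * b + dp.eval N + 2 * eN.eval N + 2 * (hR dp eN p).eval b + 1 := by
    rw [← hdd, ← hee]
    simp [lamR]
  have hlen : ∀ j ≤ mm p x, ∀ t ∈ tests P (2 ^ Nat.size P), (qs x rows P j t).length ≤ N := by
    intro j hj t ht
    rw [mem_tests, Finset.mem_product, Finset.mem_range, Finset.mem_range] at ht
    rw [hN]
    exact qs_length (by omega) h1 h2 hPlt hj (ht.1.trans hPlt) (ht.2.trans hTlt)
  have hEq : ∀ j ≤ mm p x, ∀ t ∈ tests P (2 ^ Nat.size P),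
      sz (ψ N (qs x rows P j t) hh) ≤ eN.eval N := fun j hj t ht =>
    hE N _ _ (hlen j hj t ht) hhl
  have hsees : Sees (fun j t => (ψ N (qs x rows P j t) hh).map
      fun c => 2 ^ ((hR dp eN p).eval b) * c) (dp.eval N) P (2 ^ Nat.size P) M :=
    sees_gen (xf := fun j t => ψ N (qs x rows P j t) hh) (z0 := z) hhe
      (by rw [hM]; exact hEq) (by rw [hM]; exact hz)
  have hmm : mm p x ≤ p.eval b + 1 := by
    have : p.eval x.length ≤ p.eval b := eval_mono p (by omega)
    unfold mm
    omega
  have hmem := level_mem (P := P) (k := Nat.size P) (lam := (lamR dp eN p).eval b) (w := M)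
    hsees hP1 hT1.le (hd1 N) (κ := 8 * dp.eval N * (2 ^ Nat.size P * mm p x)) (by rw [hM])
    (fun j hj => by
      rw [hM] at hj
      have := trace_gen (xf := fun t => ψ N (qs x rows P j t) hh) (d := dp.eval N) (e := eN.eval N)
        (h := (hR dp eN p).eval b) (P := P) (T := 2 ^ Nat.size P) (b := b) (hEq j hj) hPlt.le
        hTlt.le
      rw [hle]
      exact this) (by
      rw [hM]
      have h3 : 8 * dp.eval N * mm p x * (dp.eval N * (lamR dp eN p).eval b + 1) ≤
          8 * dp.eval N * (p.eval b + 1) * (dp.eval N * (lamR dp eN p).eval b + 1) :=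
        Nat.mul_le_mul_right _ (Nat.mul_le_mul_left _ hmm)
      rw [hdd] at hPe
      omega)
  unfold candR vfR
  simp only
  rw [hM] at hmem
  rw [← hbdef, hdd, ← hN]
  exact hmem

theorem findR_eq {V0 : List Bool → List Bool} {ψ : ℕ → List Bool → List Bool → List ℤ} {C : ℕ}
    {x : List Bool} {rows : List (List Bool)} {w hh : List Bool} (hU : Unq V0 p x rows w)
    (hmem : padc (mm p x) w ∈ candR dp eN p ψ C (x, rows, hh)) :
    findR dp eN p V0 ψ C (x, rows, hh) = w := by
  unfold findR
  simp only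
  have hw : w.length + 1 ≤ mm p x := by
    have := (ver_iff.1 hU.1).1
    unfold mm
    omega
  have h1 : w ∈ ((candR dp eN p ψ C (x, rows, hh)).map uncd).filter fun u => ver V0 p x u &&
      rows.all (fun a => !ip a (cd u)) := by
    rw [List.mem_filter, List.mem_map]
    refine ⟨⟨_, hmem, uncd_pad w (mm p x) hw⟩, ?_⟩
    rw [Bool.and_eq_true]
    exact ⟨hU.1, hU.2.1⟩
  cases h2 : ((candR dp eN p ψ C (x, rows, hh)).map uncd).filter fun u => ver V0 p x u &&
      rows.all (fun a => !ip a (cd u)) with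
  | nil =>
    rw [h2] at h1
    simp at h1
  | cons u l =>
    rw [List.head?_cons, Option.getD_some]
    have h3 : u ∈ ((candR dp eN p ψ C (x, rows, hh)).map uncd).filter fun u => ver V0 p x u &&
        rows.all (fun a => !ip a (cd u)) := by
      rw [h2]
      exact List.mem_cons_self
    rw [List.mem_filter, Bool.and_eq_true] at h3
    exact hU.2.2 u h3.2.1 h3.2.2

/-! ### The union bound -/

theorem prob_and_ge (n : ℕ) (A B : List Bool → Prop) :
    prob n A + prob n B - 1 ≤ prob n fun r => A r ∧ B r := by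
  classical
  rw [prob_eq, prob_eq, prob_eq]
  have h1 : ∀ r ∈ BL n, (if A r then (1 : ℝ) else 0) + (if B r then (1 : ℝ) else 0) - 1 ≤
      if A r ∧ B r then (1 : ℝ) else 0 := by
    intro r _
    by_cases hA : A r <;> by_cases hB : B r <;> simp [hA, hB]
  have h2 := Finset.expect_le_expect h1
  rw [Finset.expect_sub_distrib, Finset.expect_add_distrib,
    Finset.expect_const (BL_nonempty n)] at h2
  refine h2.trans (le_of_eq (Finset.expect_congr rfl fun r _ => ?_))
  by_cases hA : A r <;> by_cases hB : B r <;> simp [hA, hB]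

theorem prob_all_ge {β : Type} (n : ℕ) (G : β → List Bool → Prop) (δ : ℝ) (l : List β)
    (h : ∀ y ∈ l, 1 - δ ≤ prob n (G y)) :
    1 - l.length * δ ≤ prob n fun r => ∀ y ∈ l, G y r := by
  classical
  induction l with
  | nil =>
    rw [prob_eq]
    refine Finset.le_expect (BL_nonempty n) fun r _ => ?_
    simp
  | cons y l ih =>
    have h1 := ih fun y' hy' => h y' (List.mem_cons_of_mem _ hy')
    have h2 := h y List.mem_cons_self
    have h3 := prob_and_ge n (G y) (fun r => ∀ y ∈ l, G y r)
    have h4 : prob n (fun r => G y r ∧ ∀ y ∈ l, G y r) ≤ prob n fun r => ∀ y' ∈ y :: l, G y' r :=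
      prob_mono fun r _ hr y' hy' => by
        rcases List.mem_cons.1 hy' with rfl | hy'
        · exact hr.1
        · exact hr.2 y' hy'
    rw [List.length_cons]
    push_cast
    linarith

/-- The levels and tests of all queries. -/
def allq (m P T : ℕ) : List (ℕ × (ℕ × ℕ)) :=
  (List.range (m + 1)).flatMap fun j => (tests P T).map fun t => (j, t)

theorem mem_allq {m P T j : ℕ} {t : ℕ × ℕ} :
    (j, t) ∈ allq m P T ↔ j ≤ m ∧ t ∈ tests P T := by
  unfold allq
  rw [List.mem_flatMap]
  constructor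
  · rintro ⟨i, hi, h⟩
    obtain ⟨t', ht', h'⟩ := List.mem_map.1 h
    rw [List.mem_range] at hi
    obtain ⟨rfl, rfl⟩ := Prod.mk.inj h'
    exact ⟨by omega, ht'⟩
  · rintro ⟨h1, h2⟩
    exact ⟨j, List.mem_range.2 (by omega), List.mem_map.2 ⟨t, h2, rfl⟩⟩

theorem allq_length (m P T : ℕ) : (allq m P T).length = (m + 1) * (P * T) := by
  unfold allq
  rw [List.length_flatMap]
  simp [tests_length]

open Classical in
/-- **The predictor.** -/
theorem good_of_cumR {V0 : List Bool → List Bool} (hV0 : PolyTime V0)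
    {ψ : ℕ → List Bool → List Bool → List ℤ} (h : CumR ψ dp ρ (lang (HQ V0 p))) :
    ∃ (B : Helper6K1.BN.Pred) (A : Polynomial ℕ), NPC.Poly B ∧ Good V0 p B A 2 := by
  obtain ⟨hψ, hd1, hsep⟩ := h
  -- the size of the features
  obtain ⟨q0, hq0⟩ := hψ.sz_le
  set eN : Polynomial ℕ := q0.comp (Polynomial.C 6 * Polynomial.X + Polynomial.C 4 * ρ +
    Polynomial.C 5) with heN
  have hE : ∀ N (y r : List Bool), y.length ≤ N → r.length = ρ.eval N →
      sz (ψ N y r) ≤ eN.eval N := by
    intro N y r hy hr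
    have h1 := hq0 (List.replicate N (), y, r)
    simp only [List.length_replicate, sz_pair, Helper70K1.SP.sz_replicate] at h1
    have h2 := sz_listBool_le y
    have h3 := sz_listBool_le r
    refine h1.trans ?_
    rw [heN, Polynomial.eval_comp]
    refine eval_mono q0 ?_
    simp only [Polynomial.eval_add, Polynomial.eval_mul, Polynomial.eval_C, Polynomial.eval_X]
    omega
  obtain ⟨C, hC⟩ := Helper70K1.SP.poly_lt_two_pow (PBR dp eN p)
  set A : Polynomial ℕ := ρ.comp ((PNR p).comp (Polynomial.X + Polynomial.C C)) with hA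
  have hAe : ∀ n, A.eval n = ρ.eval ((PNR p).eval (n + C)) := fun n => by simp [hA]
  refine ⟨fun q => ip q.2.2.2.1 (cd (findR dp eN p V0 ψ C (q.1, q.2.1, q.2.2.1))), A, ?_, ?_⟩
  · have e1 : NPC.Poly (fun q : List Bool × List (List Bool) × List Bool × List Bool × List Bool =>
        (q.1, q.2.1, q.2.2.1)) :=
      NPC.Poly.pair (NPC.Poly.fst NPC.Poly.id) (NPC.Poly.pair
        (NPC.Poly.fst (NPC.Poly.snd NPC.Poly.id))
        (NPC.Poly.fst (NPC.Poly.snd (NPC.Poly.snd NPC.Poly.id))))
    have e2 := (findR_poly dp eN p hV0 C hψ).comp e1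
    have e3 : NPC.Poly (fun q : List Bool × List (List Bool) × List Bool × List Bool × List Bool =>
        cd (findR dp eN p V0 ψ C (q.1, q.2.1, q.2.2.1))) := by
      unfold cd
      exact NPC.Poly.append e2 (NPC.Poly.const _)
    exact ip_poly (NPC.Poly.fst (NPC.Poly.snd (NPC.Poly.snd (NPC.Poly.snd NPC.Poly.id)))) e3
  · intro x rows w h1 h2 hU
    set b := x.length + C with hb
    have hbig := hC b (Nat.le_add_left _ _)
    set N := (PNR p).eval b with hN
    have hbN : b ≤ N := by
      rw [hN]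
      simp only [PNR, Polynomial.eval_add, Polynomial.eval_mul, Polynomial.eval_ofNat,
        Polynomial.eval_X, Polynomial.eval_one]
      omega
    set P := prR dp eN p b with hP
    obtain ⟨hP1, hP2, hP3⟩ := prR_spec (dp := dp) (eN := eN) (p := p) b
    rw [← hP] at hP1 hP2 hP3
    have hBe := PBR_eval (dp := dp) (eN := eN) (p := p) b
    have hT2 := two_pow_size_le hP1.pos
    have hT1 : P < 2 ^ Nat.size P := Nat.lt_size_self P
    have hPlt : P < 2 ^ b := by omega
    have hTlt : 2 ^ Nat.size P < 2 ^ b := by omega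
    obtain ⟨z, G, hG, hz⟩ := hsep N
    have hmm : mm p x ≤ p.eval b + 1 := by
      have : p.eval x.length ≤ p.eval b := eval_mono p (Nat.le_add_right x.length C)
      unfold mm
      omega
    have hlen : ∀ j ≤ mm p x, ∀ t ∈ tests P (2 ^ Nat.size P), (qs x rows P j t).length ≤ N := by
      intro j hj t ht
      rw [mem_tests, Finset.mem_product, Finset.mem_range, Finset.mem_range] at ht
      exact qs_length (Nat.le_add_right _ _) h1 h2 hPlt hj (ht.1.trans hPlt) (ht.2.trans hTlt)
    -- the union bound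
    have hprob : 1 / 2 ≤ prob (A.eval x.length) fun hh => ∀ y ∈ allq (mm p x) P (2 ^ Nat.size P),
        G (qs x rows P y.1 y.2) hh := by
      have h3 := prob_all_ge (A.eval x.length) (fun (y : ℕ × (ℕ × ℕ)) hh =>
        G (qs x rows P y.1 y.2) hh) (1 / 2 ^ N) (allq (mm p x) P (2 ^ Nat.size P)) (by
          rintro ⟨j, t⟩ hy
          obtain ⟨hj, ht⟩ := mem_allq.1 hy
          rw [hAe, ← hb, ← hN]
          exact hG _ (hlen j hj t ht))
      refine le_trans ?_ h3
      have h4 : 2 * (allq (mm p x) P (2 ^ Nat.size P)).length ≤ 2 ^ N := by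
        rw [allq_length]
        have h5 : (mm p x + 1) * (P * 2 ^ Nat.size P) ≤ (p.eval b + 2) *
            ((2 * (PPR dp eN p).eval b) * (4 * (PPR dp eN p).eval b)) :=
          Nat.mul_le_mul (by omega) (Nat.mul_le_mul hP3 (by omega))
        have h6 : 2 ^ b ≤ 2 ^ N := Nat.pow_le_pow_right (by norm_num) hbN
        omega
      have h5 : (2 : ℝ) * ((allq (mm p x) P (2 ^ Nat.size P)).length : ℝ) ≤ 2 ^ N := by
        exact_mod_cast h4
      have h6 : (0 : ℝ) < 2 ^ N := by positivity
      have h7 : ((allq (mm p x) P (2 ^ Nat.size P)).length : ℝ) * (1 / 2 ^ N) ≤ 1 / 2 := by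
        rw [mul_one_div, div_le_iff₀ h6]
        linarith
      linarith
    -- good random strings
    have hfind : ∀ hh ∈ BL (A.eval x.length), (∀ y ∈ allq (mm p x) P (2 ^ Nat.size P),
        G (qs x rows P y.1 y.2) hh) → findR dp eN p V0 ψ C (x, rows, hh) = w := by
      intro hh hhl hg
      rw [mem_BL, hAe] at hhl
      refine findR_eq hU (candR_mem (ρ := ρ) hd1 hE h1 h2 (padc_length _ _) hb hbig hN hhl (z := z) ?_)
      intro j hj t ht
      obtain ⟨e1, e2⟩ := hz _ hh (hlen j hj t ht) hhl (hg (j, t) (mem_allq.2 ⟨hj, ht⟩))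
      have hm := qs_mem hU P j t
      cases hlb : lab P t ((padc (mm p x) w).take j) with
      | true =>
        have := e1 (hm.2 hlb)
        simp only [sgn, if_true, Int.cast_one, one_mul]
        exact this
      | false =>
        have := e2 fun hin => by
          rw [hm.1 hin] at hlb
          exact absurd hlb (by simp)
        simp only [sgn, Bool.false_eq_true, if_false, Int.cast_neg, Int.cast_one, neg_mul, one_mul]
        linarith
    have e2 : ((2 : Polynomial ℕ).eval x.length : ℕ) = 2 := by simp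
    rw [e2]
    rw [prob_eq] at hprob
    refine (le_of_eq (by norm_num)).trans (hprob.trans (Finset.expect_le_expect fun hh hhl => ?_))
    by_cases hg : ∀ y ∈ allq (mm p x) P (2 ^ Nat.size P), G (qs x rows P y.1 y.2) hh
    · rw [if_pos hg, if_pos]
      refine Finset.le_expect (BL_nonempty _) fun u _ => Finset.le_expect (BL_nonempty _) fun d _ =>
        ?_
      simp only
      rw [hfind hh hhl hg, Bool.xor_self]
      simp only [sg, Bool.false_eq_true, if_false]
      norm_num
    · rw [if_neg hg]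
      split_ifs <;> norm_num

end Pool.Agent.Helper49.RH
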