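import Pool.Agent.Helper49.RH.Stm
import Pool.Agent.Helper49.HS.Cum

/-!
# Halfspaces over randomised features for the strings of bounded length, and reductions
-/

set_option autoImplicit false

namespace Pool.Agent.Helper49.RH

open Pool.Agent.NPC Matrix
open Pool.Agent.H623R2.PS (poly_replicate)
open Pool.Agent.Helper6K1.BN (prob prob_eq expect_BL_take)
open Pool.Agent.H579R2.Spt (BL mem_BL take_poly' bits_poly)
open Pool.Agent.Helper49.HS (rv toV finite_eps dot_toV sum_getD_le)

/-- a property of a prefix of the random string -/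
theorem prob_take {a n : ℕ} (h : a ≤ n) (P : List Bool → Prop) :
    prob n (fun r => P (r.take a)) = prob a P := by
  classical
  obtain ⟨b, rfl⟩ := Nat.exists_eq_add_of_le h
  rw [prob_eq, prob_eq]
  exact expect_BL_take a b fun r => if P r then (1 : ℝ) else 0

theorem sz_listUnit (l : List Unit) : sz l = 2 * l.length + 1 := by
  induction l with
  | nil => simp
  | cons a l ih =>
    rw [sz_list_cons, ih, sz_unit, List.length_cons]
    omega

theorem replicate_unit (l : List Unit) : List.replicate l.length () = l := by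
  induction l with
  | nil => rfl
  | cons a l ih => rw [List.length_cons, List.replicate_succ, ih]

/-- the weights of a halfspace, with margins, for one length -/
theorem value_eq {n N D : ℕ} (hn : n ≤ N) (hD0 : 0 < D) (l : List ℤ) (hl : l.length + 1 ≤ D)
    (v : ℕ → ℕ → ℝ) :
    (fun i : Fin ((N + 1) * D) => (fun m j => if j = 0 then (1 : ℝ) else v m (j - 1))
        ((i : ℕ) / D) ((i : ℕ) % D)) ⬝ᵥ
      rv (toV _ (List.replicate (n * D) 0 ++ ((-1) :: l))) =
      -1 + ∑ i ∈ Finset.range l.length, v n i * ((l.getD i 0 : ℤ) : ℝ) := by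
  set zc : ℕ → ℕ → ℝ := fun m j => if j = 0 then (1 : ℝ) else v m (j - 1) with hzc
  rw [dot_toV _ (fun i => zc (i / D) (i % D))]
  obtain ⟨k, rfl⟩ : ∃ k, N = n + k := ⟨N - n, by omega⟩
  have e1 : (n + k + 1) * D = n * D + (D + k * D) := by ring
  rw [e1, Finset.sum_range_add]
  have e2 : ∑ i ∈ Finset.range (n * D), zc (i / D) (i % D) *
      (((List.replicate (n * D) (0 : ℤ) ++ ((-1) :: l)).getD i 0 : ℤ) : ℝ) = 0 := by
    refine Finset.sum_eq_zero fun i hi => ?_
    rw [Finset.mem_range] at hi
    rw [List.getD_append _ _ _ _ (by simpa using hi), List.getD_replicate _ hi]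
    simp
  rw [e2, zero_add]
  have e3 : ∀ i, (List.replicate (n * D) (0 : ℤ) ++ ((-1) :: l)).getD (n * D + i) 0 =
      ((-1) :: l).getD i 0 := by
    intro i
    rw [List.getD_append_right _ _ _ _ (by simp)]
    simp
  have e4 : ∑ i ∈ Finset.range (D + k * D), zc ((n * D + i) / D) ((n * D + i) % D) *
      (((List.replicate (n * D) (0 : ℤ) ++ ((-1) :: l)).getD (n * D + i) 0 : ℤ) : ℝ) =
      ∑ i ∈ Finset.range (l.length + 1), zc n i * ((((-1) :: l).getD i 0 : ℤ) : ℝ) := by
    rw [Finset.sum_congr rfl fun i _ => by rw [e3 i]]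
    symm
    refine Finset.sum_subset_zero_on_sdiff (fun i hi => ?_) (fun i hi => ?_) fun i hi => ?_
    · rw [Finset.mem_range] at hi ⊢
      omega
    · rw [Finset.mem_sdiff, Finset.mem_range, Finset.mem_range, not_lt] at hi
      rw [List.getD_eq_getElem?_getD, List.getElem?_eq_none (by simpa using hi.2)]
      simp
    · rw [Finset.mem_range] at hi
      have h1 : (n * D + i) / D = n := by
        rw [mul_comm, Nat.mul_add_div hD0, Nat.div_eq_of_lt (by omega), add_zero]
      have h2 : (n * D + i) % D = i := by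
        rw [mul_comm, Nat.mul_add_mod, Nat.mod_eq_of_lt (by omega)]
      rw [h1, h2]
  rw [e4, Finset.sum_range_succ']
  simp only [List.getD_cons_succ, List.getD_cons_zero, hzc, if_true, Nat.succ_ne_zero,
    if_false, Nat.add_sub_cancel]
  rw [add_comm]
  congr 1
  push_cast
  ring

theorem cumR_of_rhalfspace : Stm3 := by
  classical
  intro L h
  obtain ⟨φ, ρ, ⟨F, hF, hFφ⟩, hw⟩ := h
  have hφ : NPC.Poly (fun a : List Bool × List Unit × List Bool =>
      φ a.1 a.2.1.length a.2.2) := by
    have h3 : NPC.Poly F := PIso.poly_iff.2 hF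
    have h3' : NPC.Poly (fun a : List Bool × List Unit × List Bool => F (bits a)) :=
      h3.comp bits_poly
    have h2 : NPC.Poly (fun a : List Bool × List Unit × List Bool =>
        bits (φ a.1 a.2.1.length a.2.2)) := by
      refine h3'.congr fun a => ?_
      obtain ⟨x, l, r⟩ := a
      have := hFφ x l.length r
      rw [replicate_unit] at this
      exact this
    have h4 : NPC.Poly (fun a : List Bool × List Unit × List Bool =>
        unbits (List ℤ) (bits (φ a.1 a.2.1.length a.2.2))) := poly_unbits.comp h2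
    have h5 := NPC.Poly.optGetD (o := fun a : List Bool × List Unit × List Bool =>
        unbits (List ℤ) (bits (φ a.1 a.2.1.length a.2.2)))
      (g := fun _ => ([] : List ℤ)) h4 (NPC.Poly.const _)
    exact h5.congr fun x => by rw [unbits_bits]; rfl
  obtain ⟨p, hp⟩ := hφ.sz_le
  set Dp : Polynomial ℕ := p.comp (Polynomial.C 6 * Polynomial.X +
    Polynomial.C 4 * ρ.comp (Polynomial.C 2 * Polynomial.X) + Polynomial.C 5) + 1 with hDp
  have hDe : ∀ N, Dp.eval N = p.eval (6 * N + 4 * ρ.eval (2 * N) + 5) + 1 := fun N => by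
    simp [hDp]
  have hφl : ∀ (x r : List Bool) N, x.length ≤ N → r.length = ρ.eval (x.length + N) →
      (φ x N r).length + 1 ≤ Dp.eval N := by
    intro x r N hx hr
    have e1 := hp (x, List.replicate N (), r)
    simp only [List.length_replicate, sz_pair, sz_listUnit] at e1
    have e2 := length_lt_sz (φ x N r)
    have e3 := sz_listBool_le x
    have e5 := sz_listBool_le r
    have e6 : ρ.eval (x.length + N) ≤ ρ.eval (2 * N) := eval_mono ρ (by omega)
    have e4 := eval_mono p (m := sz x + (2 * N + 1 + sz r + 1) + 1)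
      (n := 6 * N + 4 * ρ.eval (2 * N) + 5) (by omega)
    rw [hDe]
    omega
  refine ⟨fun N x r => List.replicate (x.length * Dp.eval N) 0 ++
    ((-1) :: φ x N (r.take (ρ.eval (x.length + N)))), (Polynomial.X + 1) * Dp,
    ρ.comp (Polynomial.C 2 * Polynomial.X), ?_, ?_, ?_⟩
  · have g1 : NPC.Poly (fun a : List Unit × List Bool × List Bool => a.2.1) :=
      NPC.Poly.fst (NPC.Poly.snd NPC.Poly.id)
    have g2 : NPC.Poly (fun a : List Unit × List Bool × List Bool => a.2.2) :=
      NPC.Poly.snd (NPC.Poly.snd NPC.Poly.id)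
    have g3 : UPoly (fun a : List Unit × List Bool × List Bool => a.1.length) :=
      UPoly.length (NPC.Poly.fst NPC.Poly.id)
    have e1 : UPoly (fun a : List Unit × List Bool × List Bool =>
        a.2.1.length * Dp.eval a.1.length) :=
      UPoly.mul (UPoly.length g1) (g3.eval Dp)
    have e2 : UPoly (fun a : List Unit × List Bool × List Bool =>
        ρ.eval (a.2.1.length + a.1.length)) :=
      (UPoly.add (UPoly.length g1) g3).eval ρ
    have e3 : NPC.Poly (fun a : List Unit × List Bool × List Bool =>
        a.2.2.take (ρ.eval (a.2.1.length + a.1.length))) :=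
      take_poly' g2 e2.toPoly
    have e4 : NPC.Poly (fun a : List Unit × List Bool × List Bool =>
        (a.2.1, a.1, a.2.2.take (ρ.eval (a.2.1.length + a.1.length)))) :=
      NPC.Poly.pair g1 (NPC.Poly.pair (NPC.Poly.fst NPC.Poly.id) e3)
    exact NPC.Poly.append (poly_replicate e1 0) (NPC.Poly.cons (NPC.Poly.const (-1))
      (hφ.comp e4))
  · intro N
    rw [Polynomial.eval_mul]
    refine Nat.mul_pos (by simp) ?_
    rw [hDe]
    omega
  · intro N
    have hρN : (ρ.comp (Polynomial.C 2 * Polynomial.X)).eval N = ρ.eval (2 * N) := by simp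
    have hdN : ((Polynomial.X + 1) * Dp).eval N = (N + 1) * Dp.eval N := by simp
    rw [hdN, hρN]
    set D := Dp.eval N with hD
    have hD0 : 0 < D := by
      rw [hD, hDe]
      omega
    choose w hw2 using fun n => hw n N
    have hε : ∀ n : ℕ, ∃ ε : ℝ, 0 < ε ∧ ∀ x r : List Bool, x.length = n →
        r.length = ρ.eval (n + N) →
        0 < ∑ i ∈ Finset.range (φ x N r).length, w n i * ((φ x N r).getD i 0 : ℤ) →
        ε ≤ ∑ i ∈ Finset.range (φ x N r).length, w n i * ((φ x N r).getD i 0 : ℤ) := by
      intro n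
      obtain ⟨ε, h1, h2⟩ := finite_eps (s := {q : List Bool × List Bool |
          (q.1.length = n ∧ q.2.length = ρ.eval (n + N)) ∧
          0 < ∑ i ∈ Finset.range (φ q.1 N q.2).length, w n i * ((φ q.1 N q.2).getD i 0 : ℤ)})
        (((List.finite_length_eq Bool n).prod
          (List.finite_length_eq Bool (ρ.eval (n + N)))).subset fun q hq => hq.1)
        (fun q => ∑ i ∈ Finset.range (φ q.1 N q.2).length, w n i * ((φ q.1 N q.2).getD i 0 : ℤ))
        fun q hq => hq.2
      exact ⟨ε, h1, fun x r hx hr hp => h2 (x, r) ⟨⟨hx, hr⟩, hp⟩⟩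
    choose ε hε0 hε1 using hε
    refine ⟨fun i => (fun m j => if j = 0 then (1 : ℝ) else (fun m j => 2 / ε m * w m j) m (j - 1))
      ((i : ℕ) / D) ((i : ℕ) % D), fun x r => (x ∈ L ↔ 0 < ∑ i ∈ Finset.range
        (φ x N (r.take (ρ.eval (x.length + N)))).length,
          w x.length i * ((φ x N (r.take (ρ.eval (x.length + N)))).getD i 0 : ℤ)),
      fun x hx => ?_, fun x r hx hr hG => ?_⟩
    · have h1 := hw2 x.length x rfl
      have h2 : ρ.eval (x.length + N) ≤ ρ.eval (2 * N) := eval_mono ρ (by omega)
      rw [← prob_take h2] at h1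
      exact h1
    · set r' := r.take (ρ.eval (x.length + N)) with hr'
      have hrl : r'.length = ρ.eval (x.length + N) := by
        rw [hr', List.length_take, hr]
        exact min_eq_left (eval_mono ρ (by omega))
      have hval := value_eq hx hD0 (φ x N r') (hφl x r' N hx hrl) fun m j => 2 / ε m * w m j
      have e5 : ∑ i ∈ Finset.range (φ x N r').length, (2 / ε x.length * w x.length i) *
          (((φ x N r').getD i 0 : ℤ) : ℝ) = 2 / ε x.length *
          ∑ i ∈ Finset.range (φ x N r').length, w x.length i * ((φ x N r').getD i 0 : ℤ) := by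
        rw [Finset.mul_sum]
        exact Finset.sum_congr rfl fun i _ => by ring
      rw [hval, e5]
      have h0 := hε0 x.length
      constructor
      · intro hxL
        have h1 := hε1 x.length x r' rfl hrl (hG.1 hxL)
        have h2 : 2 / ε x.length * ε x.length ≤ 2 / ε x.length *
            ∑ i ∈ Finset.range (φ x N r').length, w x.length i * ((φ x N r').getD i 0 : ℤ) :=
          mul_le_mul_of_nonneg_left h1 (by positivity)
        rw [div_mul_cancel₀ _ h0.ne'] at h2
        linarith
      · intro hxL
        have h1 : ∑ i ∈ Finset.range (φ x N r').length,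
            w x.length i * ((φ x N r').getD i 0 : ℤ) ≤ 0 := by
          by_contra hcon
          exact hxL (hG.2 (not_le.1 hcon))
        have h2 : 2 / ε x.length *
            ∑ i ∈ Finset.range (φ x N r').length, w x.length i * ((φ x N r').getD i 0 : ℤ) ≤ 0 :=
          mul_nonpos_of_nonneg_of_nonpos (by positivity) h1
        linarith

/-- Separation passes to reducible languages. -/
theorem cumR_of_reduces : Stm4 := by
  intro A L hred hA
  obtain ⟨f, hf, hfA⟩ := hred
  obtain ⟨ψ, dp, ρ, hψ, hd1, hsep⟩ := hA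
  have hfp : NPC.Poly f := PIso.poly_iff.2 hf
  obtain ⟨p, hp⟩ := hfp.sz_le
  set R : Polynomial ℕ := p.comp (Polynomial.C 4 * Polynomial.X + 1) + Polynomial.X with hR
  have hRe : ∀ N, R.eval N = p.eval (4 * N + 1) + N := fun N => by simp [hR]
  refine ⟨fun N x r => ψ (R.eval N) (f x) r, dp.comp R, ρ.comp R, ?_, ?_, ?_⟩
  · have e1 : NPC.Poly (fun a : List Unit × List Bool × List Bool =>
        (List.replicate (R.eval a.1.length) (), f a.2.1, a.2.2)) :=
      NPC.Poly.pair ((UPoly.length (NPC.Poly.fst NPC.Poly.id)).eval R)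
        (NPC.Poly.pair (hfp.comp (NPC.Poly.fst (NPC.Poly.snd NPC.Poly.id)))
          (NPC.Poly.snd (NPC.Poly.snd NPC.Poly.id)))
    refine (hψ.comp e1).congr fun a => ?_
    simp only [List.length_replicate]
  · intro N
    rw [Polynomial.eval_comp]
    exact hd1 _
  · intro N
    have hlen : ∀ x : List Bool, x.length ≤ N → (f x).length ≤ R.eval N := by
      intro x hx
      have e1 := hp x
      have e2 := length_lt_sz (f x)
      have e3 := sz_listBool_le x
      have e4 : p.eval (sz x) ≤ p.eval (4 * N + 1) := eval_mono p (by omega)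
      rw [hRe]
      omega
    obtain ⟨z, G, hG, hz⟩ := hsep (R.eval N)
    rw [Polynomial.eval_comp, Polynomial.eval_comp]
    refine ⟨z, fun x r => G (f x) r, fun x hx => ?_, fun x r hx hr hg => ?_⟩
    · refine le_trans ?_ (hG (f x) (hlen x hx))
      have h1 : (1 : ℝ) / 2 ^ (R.eval N) ≤ 1 / 2 ^ N :=
        one_div_le_one_div_of_le (by positivity)
          (pow_le_pow_right₀ (by norm_num) (by rw [hRe]; omega))
      linarith
    · obtain ⟨e1, e2⟩ := hz (f x) r (hlen x hx) hr hg
      exact ⟨fun hx' => e1 ((hfA x).1 hx'), fun hx' => e2 fun h => hx' ((hfA x).2 h)⟩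

end Pool.Agent.Helper49.RH
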