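import Pool.Agent.Helper49.HS.Gate
import Pool.Agent.Helper6K1.BN.Final

/-!
# Halfspaces over features computed in randomised polynomial time
-/

set_option autoImplicit false

namespace Pool.Agent.Helper49.RH

open Pool.Agent.NPC Matrix
open Pool.Agent.Helper6K1.BN (prob)
open Pool.Agent.Helper49.HS (rv toV)

/-- `L` is a halfspace over integer features computed in randomised polynomial time with arbitrarily
small error: from a string `x`, a number `e` (given in unary) and random bits `r`, a list of
integers `φ x e r` is computed in polynomial time, and for all `n` and `e` there are real numbers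
`w 0, w 1, …` such that, for each string `x` of length `n`, with probability at least `1 - 2 ^ (-e)`
over the random bits `r`, the string `x` is in `L` if and only if the sum of the products
`w i * (φ x e r) i` is positive. The real numbers `w i` are arbitrary. -/
def RHalfspace (L : Set (List Bool)) : Prop :=
  ∃ (φ : List Bool → ℕ → List Bool → List ℤ) (ρ : Polynomial ℕ),
    (∃ F : List Bool → List Bool, PolyTime F ∧
      ∀ x e r, F (bits (x, List.replicate e (), r)) = bits (φ x e r)) ∧
    ∀ n e : ℕ, ∃ w : ℕ → ℝ, ∀ x : List Bool, x.length = n →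
      1 - 1 / 2 ^ e ≤ prob (ρ.eval (n + e)) fun r =>
        (x ∈ L ↔ 0 < ∑ i ∈ Finset.range (φ x e r).length, w i * ((φ x e r).getD i 0 : ℤ))

/-- Linear separation for all strings of length at most `N`, with error at most `2 ^ (-N)`. -/
def CumR (ψ : ℕ → List Bool → List Bool → List ℤ) (dp ρ : Polynomial ℕ)
    (L : Set (List Bool)) : Prop :=
  NPC.Poly (fun a : List Unit × List Bool × List Bool => ψ a.1.length a.2.1 a.2.2) ∧
    (∀ N, 1 ≤ dp.eval N) ∧
    ∀ N : ℕ, ∃ (z : Fin (dp.eval N) → ℝ) (G : List Bool → List Bool → Prop),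
      (∀ x : List Bool, x.length ≤ N → 1 - 1 / 2 ^ N ≤ prob (ρ.eval N) (G x)) ∧
      ∀ x r : List Bool, x.length ≤ N → r.length = ρ.eval N → G x r →
        (x ∈ L → 1 ≤ z ⬝ᵥ rv (toV _ (ψ N x r))) ∧ (x ∉ L → z ⬝ᵥ rv (toV _ (ψ N x r)) ≤ -1)

end Pool.Agent.Helper49.RH
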