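import Pool.Agent.Helper49.RH.Main
import Pool.Agent.Helper49.RH.Conv0
import Pool.Agent.Helper49.RH.Conv1
import Pool.Agent.Helper49.RH.Cum
import Pool.Agent.Z45.OG.Sat

/-!
# NP is contained in BPP if and only if its languages are randomised halfspaces
-/

set_option autoImplicit false

namespace Pool.Agent.Helper49.RH

open Pool.Agent.NPC
open Pool.Agent.Helper6K1.BN (InBPP InRP)
open Pool.Agent.Helper49.HS (Halfspace LT1 halfspace_of_LT1)

theorem np_of_all (h : ∀ L : Set (List Bool), InNP L → RHalfspace L) {L : Set (List Bool)}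
    (hL : InNP L) : InBPP L ∧ InRP L :=
  np_of_cumR (fun L' hL' => cumR_of_rhalfspace L' (h L' hL')) hL

theorem np_of_hard {A : Set (List Bool)} (hA : NPHard A) (h : RHalfspace A) {L : Set (List Bool)}
    (hL : InNP L) : InBPP L ∧ InRP L :=
  np_of_cumR (fun L' hL' => cumR_of_reduces A L' (hA L' hL') (cumR_of_rhalfspace A h)) hL

theorem rhalfspace_of_LT1 {A : Set (List Bool)} (h : LT1 A) : RHalfspace A :=
  rhalfspace_of_halfspace A (halfspace_of_LT1 h)

end Pool.Agent.Helper49.RH
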