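import Pool.Agent.Helper49.RH.Query

/-!
# The randomised search for the unique certificate
-/

set_option autoImplicit false

namespace Pool.Agent.Helper49.RH

open Pool.Agent.NPC Matrix
open Pool.Agent.H579R2.Spt (sgn tests mem_tests lab ip ip_poly cd ver ver_poly ver_iff
  prm prm_spec prm_poly two_pow_size_poly)
open Pool.Agent.Helper6K1.BN (mm Unq uncd uncd_pad uncd_poly prob prob_eq prob_mono)
open Pool.Agent.Helper49.HS hiding cd
open Pool.Agent.Helper49.KM (two_pow_size_le)

variable (dp eN p : Polynomial ℕ)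

/-- The dimension. -/
noncomputable def dR : Polynomial ℕ := dp.comp (PNR p)

/-- The size of the features. -/
noncomputable def eR : Polynomial ℕ := eN.comp (PNR p)

/-- The exponent of the factor of the features. -/
noncomputable def hR : Polynomial ℕ :=
  Polynomial.C 3 * dR dp p + dR dp p * dR dp p + eR eN p * dR dp p

/-- The exponent of the bound for the trace. -/
noncomputable def lamR : Polynomial ℕ :=
  Polynomial.C 2 * Polynomial.X + dR dp p + Polynomial.C 2 * eR eN p +
    Polynomial.C 2 * hR dp eN p + Polynomial.C 1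

/-- The lower bound for the prime of the tests. -/
noncomputable def PPR : Polynomial ℕ :=
  Polynomial.C 8 * dR dp p * (p + Polynomial.C 1) * (dR dp p * lamR dp eN p + Polynomial.C 1) +
    Polynomial.C 1

/-- The bound for all the numbers in the queries and for the number of the queries. -/
noncomputable def PBR : Polynomial ℕ :=
  Polynomial.C 4 * PPR dp eN p + Polynomial.C 2 * ((p + Polynomial.C 2) *
    ((Polynomial.C 2 * PPR dp eN p) * (Polynomial.C 4 * PPR dp eN p)))

/-- The prime of the tests. -/
noncomputable def prR (b : ℕ) : ℕ := prm ((PPR dp eN p).eval b)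

/-- The features of a query. -/
noncomputable def vfR (ψ : ℕ → List Bool → List Bool → List ℤ) (C : ℕ)
    (q : List Bool × List (List Bool) × List Bool) (j : ℕ) (t : ℕ × ℕ) : List ℤ :=
  (ψ ((PNR p).eval (q.1.length + C)) (qs q.1 q.2.1 (prR dp eN p (q.1.length + C)) j t)
    q.2.2).map fun c => 2 ^ ((hR dp eN p).eval (q.1.length + C)) * c

/-- The candidates. -/
noncomputable def candR (ψ : ℕ → List Bool → List Bool → List ℤ) (C : ℕ)
    (q : List Bool × List (List Bool) × List Bool) : List (List Bool) :=
  level (keep (vfR dp eN p ψ C q) ((dR dp p).eval (q.1.length + C))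
    (8 * (dR dp p).eval (q.1.length + C) *
      (2 ^ Nat.size (prR dp eN p (q.1.length + C)) * mm p q.1))
    (prR dp eN p (q.1.length + C)) (2 ^ Nat.size (prR dp eN p (q.1.length + C))))
    (prR dp eN p (q.1.length + C)) (mm p q.1)

/-- The search. -/
noncomputable def findR (V0 : List Bool → List Bool) (ψ : ℕ → List Bool → List Bool → List ℤ)
    (C : ℕ) (q : List Bool × List (List Bool) × List Bool) : List Bool :=
  ((((candR dp eN p ψ C q).map uncd).filter fun u => ver V0 p q.1 u &&
    q.2.1.all (fun a => !ip a (cd u))).head?).getD []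

theorem candR_poly {ψ : ℕ → List Bool → List Bool → List ℤ} (C : ℕ)
    (hψ : NPC.Poly (fun a : List Unit × List Bool × List Bool => ψ a.1.length a.2.1 a.2.2)) :
    NPC.Poly (candR dp eN p ψ C) := by
  have ex : NPC.Poly (fun q : List Bool × List (List Bool) × List Bool => q.1) :=
    NPC.Poly.fst NPC.Poly.id
  have er : NPC.Poly (fun q : List Bool × List (List Bool) × List Bool => q.2.1) :=
    NPC.Poly.fst (NPC.Poly.snd NPC.Poly.id)
  have eh : NPC.Poly (fun q : List Bool × List (List Bool) × List Bool => q.2.2) :=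
    NPC.Poly.snd (NPC.Poly.snd NPC.Poly.id)
  have hb : UPoly (fun q : List Bool × List (List Bool) × List Bool => q.1.length + C) :=
    (UPoly.length ex).add (UPoly.const C)
  have hm : UPoly (fun q : List Bool × List (List Bool) × List Bool => mm p q.1) :=
    ((UPoly.length ex).eval p).add (UPoly.const 1)
  have hP : UPoly (fun q : List Bool × List (List Bool) × List Bool =>
      prR dp eN p (q.1.length + C)) := prm_poly (hb.eval (PPR dp eN p))
  have hT : UPoly (fun q : List Bool × List (List Bool) × List Bool =>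
      2 ^ Nat.size (prR dp eN p (q.1.length + C))) := two_pow_size_poly hP
  have hd : UPoly (fun q : List Bool × List (List Bool) × List Bool =>
      (dR dp p).eval (q.1.length + C)) := hb.eval (dR dp p)
  have hκ : UPoly (fun q : List Bool × List (List Bool) × List Bool =>
      8 * (dR dp p).eval (q.1.length + C) *
      (2 ^ Nat.size (prR dp eN p (q.1.length + C)) * mm p q.1)) :=
    UPoly.mul (UPoly.mul (UPoly.const 8) hd) (UPoly.mul hT hm)
  have hvf : NPC.Poly (fun a : (List Bool × List (List Bool) × List Bool) × ℕ × ℕ × ℕ =>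
      vfR dp eN p ψ C a.1 a.2.1 a.2.2) := by
    unfold vfR
    have e1 : NPC.Poly (fun a : (List Bool × List (List Bool) × List Bool) × ℕ × ℕ × ℕ => a.1) :=
      NPC.Poly.fst NPC.Poly.id
    have e2 : NPC.Poly (fun a : (List Bool × List (List Bool) × List Bool) × ℕ × ℕ × ℕ =>
        qs a.1.1 a.1.2.1 (prR dp eN p (a.1.1.length + C)) a.2.1 a.2.2) := by
      unfold qs
      exact H579R2.Spt.bits_poly.comp (NPC.Poly.pair (NPC.Poly.pair (ex.comp e1) (er.comp e1))
        (NPC.Poly.pair (hP.toPoly.comp e1) (NPC.Poly.pair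
          (NPC.Poly.fst (NPC.Poly.snd NPC.Poly.id)) (NPC.Poly.snd (NPC.Poly.snd NPC.Poly.id)))))
    have e3 : NPC.Poly (fun a : (List Bool × List (List Bool) × List Bool) × ℕ × ℕ × ℕ =>
        (List.replicate ((PNR p).eval (a.1.1.length + C)) (),
          qs a.1.1 a.1.2.1 (prR dp eN p (a.1.1.length + C)) a.2.1 a.2.2, a.1.2.2)) :=
      NPC.Poly.pair ((hb.comp e1).eval (PNR p)) (NPC.Poly.pair e2 (eh.comp e1))
    have e4 : NPC.Poly (fun a : (List Bool × List (List Bool) × List Bool) × ℕ × ℕ × ℕ =>
        ψ ((PNR p).eval (a.1.1.length + C))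
          (qs a.1.1 a.1.2.1 (prR dp eN p (a.1.1.length + C)) a.2.1 a.2.2) a.1.2.2) :=
      (hψ.comp e3).congr fun a => by simp only [List.length_replicate]
    refine NPC.Poly.map (F := fun (a : (List Bool × List (List Bool) × List Bool) × ℕ × ℕ × ℕ) c =>
      2 ^ ((hR dp eN p).eval (a.1.1.length + C)) * c) e4 ?_
    refine NPC.Poly.imul (NPC.Poly.ipow (NPC.Poly.const 2) ?_) (NPC.Poly.snd NPC.Poly.id)
    exact (hb.comp (NPC.Poly.fst (NPC.Poly.fst NPC.Poly.id))).eval (hR dp eN p)
  unfold candR
  refine level_poly (K := fun q : List Bool × List (List Bool) × List Bool =>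
    keep (vfR dp eN p ψ C q) ((dR dp p).eval (q.1.length + C))
    (8 * (dR dp p).eval (q.1.length + C) *
      (2 ^ Nat.size (prR dp eN p (q.1.length + C)) * mm p q.1))
    (prR dp eN p (q.1.length + C)) (2 ^ Nat.size (prR dp eN p (q.1.length + C)))) ?_ hP hm
  have e1 : NPC.Poly (fun a : (List Bool × List (List Bool) × List Bool) × List Bool => a.1) :=
    NPC.Poly.fst NPC.Poly.id
  refine keep_poly (vf := fun a : (List Bool × List (List Bool) × List Bool) × List Bool =>
    vfR dp eN p ψ C a.1) (hd.comp e1) (hκ.toPoly.comp e1) (hP.comp e1) (hT.comp e1) ?_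
    (NPC.Poly.snd NPC.Poly.id)
  exact hvf.comp (NPC.Poly.pair (NPC.Poly.fst (NPC.Poly.fst NPC.Poly.id))
    (NPC.Poly.snd NPC.Poly.id))

theorem findR_poly {V0 : List Bool → List Bool} (hV0 : PolyTime V0)
    {ψ : ℕ → List Bool → List Bool → List ℤ} (C : ℕ)
    (hψ : NPC.Poly (fun a : List Unit × List Bool × List Bool => ψ a.1.length a.2.1 a.2.2)) :
    NPC.Poly (findR dp eN p V0 ψ C) := by
  have h1 : NPC.Poly (fun q : List Bool × List (List Bool) × List Bool =>
      (candR dp eN p ψ C q).map uncd) :=
    NPC.Poly.map (F := fun _ u => uncd u) (candR_poly dp eN p C hψ)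
      (uncd_poly (NPC.Poly.snd NPC.Poly.id))
  have ecd : NPC.Poly (fun a : (List Bool × List (List Bool) × List Bool) × List Bool =>
      cd a.2) := by
    unfold cd
    exact NPC.Poly.append (NPC.Poly.snd NPC.Poly.id) (NPC.Poly.const _)
  have h2 := NPC.Poly.filter (p := fun (q : List Bool × List (List Bool) × List Bool) u =>
    ver V0 p q.1 u && q.2.1.all (fun a => !ip a (cd u))) h1
    (NPC.Poly.and ((ver_poly hV0 p).comp (NPC.Poly.pair (NPC.Poly.fst (NPC.Poly.fst NPC.Poly.id))
      (NPC.Poly.snd NPC.Poly.id)))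
      (NPC.Poly.all (l := fun a : (List Bool × List (List Bool) × List Bool) × List Bool =>
        a.1.2.1) (p := fun a u => !ip u (cd a.2))
        (NPC.Poly.fst (NPC.Poly.snd (NPC.Poly.fst NPC.Poly.id)))
        (NPC.Poly.not (ip_poly (NPC.Poly.snd NPC.Poly.id)
          (ecd.comp (NPC.Poly.fst NPC.Poly.id))))))
  unfold findR
  exact NPC.Poly.optGetD (NPC.Poly.head? h2) (NPC.Poly.const _)

end Pool.Agent.Helper49.RH
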