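import Pool.Agent.Helper49.RH.Defs

/-!
# The conditions of the search, for arbitrary features
-/

set_option autoImplicit false

namespace Pool.Agent.Helper49.RH

open Pool.Agent.NPC Matrix
open Pool.Agent.H579R2.Spt (sgn tests mem_tests lab)
open Pool.Agent.Helper49.HS

theorem sees_gen {xf : ℕ → ℕ × ℕ → List ℤ} {d e h P T : ℕ} {M : List Bool}
    (hh : h = 3 * d + d * d + e * d)
    (hE : ∀ j ≤ M.length, ∀ t ∈ tests P T, sz (xf j t) ≤ e) {z0 : Fin d → ℝ}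
    (hz0 : ∀ j ≤ M.length, ∀ t ∈ tests P T,
      1 ≤ ((sgn (lab P t (M.take j)) : ℤ) : ℝ) * (z0 ⬝ᵥ rv (toV _ (xf j t)))) :
    Sees (fun j t => (xf j t).map fun c => 2 ^ h * c) d P T M := by
  intro j hj S _ _ hSt
  set x : ℕ × ℕ → Fin d → ℤ := fun t => toV d (xf j t) with hx
  have hvx : ∀ t, rv (toV d ((xf j t).map fun c => 2 ^ h * c)) =
      ((2 ^ h : ℤ) : ℝ) • rv (x t) := by
    intro t
    rw [toV_mul, rv_smul]
  obtain ⟨z1, h1, h2⟩ := small_solution S x (B := 2 ^ e) Nat.one_le_two_pow (fun t ht i =>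
    getD_le_of_sz (hE j hj t (hSt t ht)) _) z0
  have hH0 : (0 : ℝ) < ((2 ^ h : ℤ) : ℝ) := by
    push_cast
    positivity
  set H : ℝ := ((2 ^ h : ℤ) : ℝ) with hH
  have hdot : ∀ t ∈ S, (H⁻¹ • z1) ⬝ᵥ rv (toV d ((xf j t).map fun c => 2 ^ h * c)) =
      z0 ⬝ᵥ rv (x t) := by
    intro t ht
    rw [hvx, smul_dotProduct, dotProduct_smul, smul_smul, inv_mul_cancel₀ hH0.ne', one_smul]
    exact h1 t ht
  refine ⟨H⁻¹ • z1, ?_, fun t ht => ?_⟩
  · have e1 : (S.map fun t => ((H⁻¹ • z1) ⬝ᵥ rv (toV d ((xf j t).map fun c => 2 ^ h * c))) ^ 2) =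
        S.map fun t => (z0 ⬝ᵥ rv (x t)) ^ 2 :=
      List.map_congr_left fun t ht => by rw [hdot t ht]
    rw [e1, smul_dotProduct, dotProduct_smul, smul_eq_mul, smul_eq_mul]
    set F := (S.map fun t => (z0 ⬝ᵥ rv (x t)) ^ 2).sum with hF
    have hF0 : 0 ≤ F := List.sum_nonneg fun b hb => by
      obtain ⟨t, _, rfl⟩ := List.mem_map.1 hb
      positivity
    have h3 : ((d * (d * d * (d.factorial * (2 ^ e) ^ d)) ^ 2 : ℕ) : ℝ) ≤ H ^ 2 := by
      have h4 := pow_bound d e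
      rw [← hh] at h4
      have h5 : ((d * (d * d * (d.factorial * (2 ^ e) ^ d)) ^ 2 : ℕ) : ℝ) ≤
          (((2 ^ h) ^ 2 : ℕ) : ℝ) := by exact_mod_cast h4
      refine h5.trans (le_of_eq ?_)
      rw [hH]
      push_cast
      ring
    have h4 : z1 ⬝ᵥ z1 ≤ H ^ 2 * F := h2.trans (mul_le_mul_of_nonneg_right h3 hF0)
    have h5 : H⁻¹ * (H⁻¹ * (z1 ⬝ᵥ z1)) ≤ H⁻¹ * (H⁻¹ * (H ^ 2 * F)) := by gcongr
    refine h5.trans (le_of_eq ?_)
    field_simp
  · rw [hdot t ht]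
    exact hz0 j hj t (hSt t ht)

theorem trace_gen {xf : ℕ × ℕ → List ℤ} {d e h P T b : ℕ}
    (hE : ∀ t ∈ tests P T, sz (xf t) ≤ e) (hP : P ≤ 2 ^ b) (hT : T ≤ 2 ^ b) :
    (gram ((tests P T).map fun t => toV d ((xf t).map fun c => 2 ^ h * c))).trace ≤
      2 ^ (2 * b + d + 2 * e + 2 * h + 1) := by
  set l := tests P T with hl
  have hll : l.length ≤ 2 ^ b * 2 ^ b := by
    rw [hl, tests_length]
    exact Nat.mul_le_mul hP hT
  rw [trace_gram, List.map_map]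
  have h1 : (l.map ((fun x => x ⬝ᵥ x) ∘ fun t => toV d ((xf t).map fun c => 2 ^ h * c))).sum ≤
      ((l.length * (d * ((2 ^ h * 2 ^ e) * (2 ^ h * 2 ^ e))) : ℕ) : ℤ) := by
    refine (List.sum_le_card_nsmul _ ((d * ((2 ^ h * 2 ^ e) * (2 ^ h * 2 ^ e)) : ℕ) : ℤ)
      fun b hb => ?_).trans ?_
    · obtain ⟨t, ht, rfl⟩ := List.mem_map.1 hb
      simp only [Function.comp_apply]
      refine dot_self_le _ fun i => ?_
      rw [toV_mul, Int.natAbs_mul]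
      have e2 : (toV d (xf t) i).natAbs ≤ 2 ^ e := getD_le_of_sz (hE t ht) _
      have e3 : (2 ^ h : ℤ).natAbs = 2 ^ h := by
        rw [Int.natAbs_pow]
        rfl
      rw [e3]
      exact Nat.mul_le_mul_left _ e2
    · rw [List.length_map, nsmul_eq_mul]
      push_cast
      exact le_rfl
  have h2 : l.length * (d * ((2 ^ h * 2 ^ e) * (2 ^ h * 2 ^ e))) ≤
      2 ^ (2 * b + d + 2 * e + 2 * h) := by
    calc l.length * (d * ((2 ^ h * 2 ^ e) * (2 ^ h * 2 ^ e)))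
        ≤ (2 ^ b * 2 ^ b) * (2 ^ d * ((2 ^ h * 2 ^ e) * (2 ^ h * 2 ^ e))) :=
          Nat.mul_le_mul hll (Nat.mul_le_mul_right _ Nat.lt_two_pow_self.le)
      _ = 2 ^ (2 * b + d + 2 * e + 2 * h) := by
        simp only [← pow_add]
        congr 1
        ring
  have h3 : d ≤ 2 ^ (2 * b + d + 2 * e + 2 * h) :=
    Nat.lt_two_pow_self.le.trans (Nat.pow_le_pow_right (by norm_num) (by omega))
  have h4 : (d : ℤ) + ((l.length * (d * ((2 ^ h * 2 ^ e) * (2 ^ h * 2 ^ e))) : ℕ) : ℤ) ≤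
      2 ^ (2 * b + d + 2 * e + 2 * h + 1) := by
    rw [pow_succ]
    have h5 : (d : ℤ) ≤ 2 ^ (2 * b + d + 2 * e + 2 * h) := by exact_mod_cast h3
    have h6 : ((l.length * (d * ((2 ^ h * 2 ^ e) * (2 ^ h * 2 ^ e))) : ℕ) : ℤ) ≤
      2 ^ (2 * b + d + 2 * e + 2 * h) := by exact_mod_cast h2
    linarith
  linarith

end Pool.Agent.Helper49.RH
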