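import Pool.Agent.Helper49.RH.Correct

/-!
# Randomised halfspaces and NP
-/

set_option autoImplicit false

namespace Pool.Agent.Helper49.RH

open Pool.Agent.NPC Matrix
open Pool.Agent.H579R2.Spt (ver ver_iff)
open Pool.Agent.Helper6K1.BN (engine_BPP engine_RP InBPP InRP)

/-- If the languages in `NP` can be separated, then `NP = RP`. -/
theorem np_of_cumR (h : ∀ L : Set (List Bool), InNP L → ∃ ψ dp ρ, CumR ψ dp ρ L)
    {L : Set (List Bool)} (hL : InNP L) : InBPP L ∧ InRP L := by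
  obtain ⟨V0, p, hV0, hL'⟩ := hL
  obtain ⟨ψ, dp, ρ, hc⟩ := h _ (HQ_inNP hV0 p)
  obtain ⟨B, A, hB, hgood⟩ := good_of_cumR hV0 hc
  have hLv : ∀ x, x ∈ L ↔ ∃ w, ver V0 p x w = true := fun x => by
    rw [hL' x]
    exact exists_congr fun w => ver_iff.symm
  have hQ : ∀ n : ℕ, 1 ≤ (2 : Polynomial ℕ).eval n := fun n => by simp
  exact ⟨engine_BPP hV0 hB hgood hQ hLv, engine_RP hV0 hB hgood hQ hLv⟩

end Pool.Agent.Helper49.RH
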