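import Pool.Agent.Helper49.RH.Gen
import Pool.Agent.Helper6K1.BN.Aux1
import Pool.Agent.Helper6K1.BN.T1c

/-!
# The labels of the prefixes of the unique certificate
-/

set_option autoImplicit false

namespace Pool.Agent.Helper49.RH

open Pool.Agent.NPC Matrix Finset
open Pool.Agent.H579R2.Spt (sgn tests mem_tests lab lab_poly ip ip_poly cd ver ver_poly ver_iff
  take_poly')
open Pool.Agent.Helper6K1.BN (mm Unq uncd uncd_pad)

/-- The padded code of a certificate. -/
def padc (m : ℕ) (w : List Bool) : List Bool := (List.range m).map fun i => (cd w).getD i false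

theorem padc_length (m : ℕ) (w : List Bool) : (padc m w).length = m := by simp [padc]

theorem padc_poly {α : Type} [TEnc α] {m : α → ℕ} {w : α → List Bool} (hm : UPoly m)
    (hw : NPC.Poly w) : NPC.Poly (fun a => padc (m a) (w a)) := by
  unfold padc
  have hcd : NPC.Poly (fun a => cd (w a)) := by
    unfold cd
    exact NPC.Poly.append hw (NPC.Poly.const _)
  exact NPC.Poly.map (F := fun a i => (cd (w a)).getD i false) hm.range
    (NPC.Poly.getD (hcd.comp (NPC.Poly.fst NPC.Poly.id)) (NPC.Poly.snd NPC.Poly.id)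
      (NPC.Poly.const false))

/-- The queries. -/
abbrev QR : Type := (List Bool × List (List Bool)) × (ℕ × (ℕ × (ℕ × ℕ)))

/-- Some certificate that is orthogonal to the rows has the label `true` at level `j`. -/
def HQ (V0 : List Bool → List Bool) (p : Polynomial ℕ) (a : QR) : Prop :=
  ∃ w, ver V0 p a.1.1 w = true ∧ a.1.2.all (fun u => !ip u (cd w)) = true ∧
    lab a.2.1 a.2.2.2 ((padc (mm p a.1.1) w).take a.2.2.1) = true

theorem HQ_inNP {V0 : List Bool → List Bool} (hV0 : PolyTime V0) (p : Polynomial ℕ) :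
    InNP (lang (HQ V0 p)) := by
  have hR : NPC.Poly (fun q : QR × List Bool => (ver V0 p q.1.1.1 q.2 &&
      q.1.1.2.all (fun a => !ip a (cd q.2))) &&
      lab q.1.2.1 q.1.2.2.2 ((padc (mm p q.1.1.1) q.2).take q.1.2.2.1)) := by
    have e0 : NPC.Poly (fun q : QR × List Bool => q.1) := NPC.Poly.fst NPC.Poly.id
    have ew : NPC.Poly (fun q : QR × List Bool => q.2) := NPC.Poly.snd NPC.Poly.id
    have ecd : NPC.Poly (fun q : QR × List Bool => cd q.2) := by
      unfold cd
      exact NPC.Poly.append ew (NPC.Poly.const _)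
    have e1 : NPC.Poly (fun q : QR × List Bool => q.1.1.1) := NPC.Poly.fst (NPC.Poly.fst e0)
    have e2 : NPC.Poly (fun q : QR × List Bool => q.1.2) := NPC.Poly.snd e0
    have em : UPoly (fun q : QR × List Bool => mm p q.1.1.1) :=
      ((UPoly.length e1).eval p).add (UPoly.const 1)
    refine NPC.Poly.and (NPC.Poly.and ((ver_poly hV0 p).comp (NPC.Poly.pair e1 ew))
      (NPC.Poly.all (l := fun q : QR × List Bool => q.1.1.2)
        (p := fun q a => !ip a (cd q.2)) (NPC.Poly.snd (NPC.Poly.fst e0)) ?_)) ?_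
    · exact NPC.Poly.not (ip_poly (NPC.Poly.snd NPC.Poly.id) (ecd.comp (NPC.Poly.fst NPC.Poly.id)))
    · exact lab_poly (NPC.Poly.fst e2) (NPC.Poly.snd (NPC.Poly.snd e2))
        (take_poly' (padc_poly em ew) (NPC.Poly.fst (NPC.Poly.snd e2)))
  refine inNPP_of (α := QR) (β := List Bool)
    (R := fun q : QR × List Bool => (ver V0 p q.1.1.1 q.2 &&
      q.1.1.2.all (fun a => !ip a (cd q.2))) &&
      lab q.1.2.1 q.1.2.2.2 ((padc (mm p q.1.1.1) q.2).take q.1.2.2.1)) hR (4 * p + 1) ?_
  intro I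
  constructor
  · rintro ⟨w, h1, h2, h3⟩
    refine ⟨w, ?_, ?_⟩
    · have h4 : w.length ≤ p.eval I.1.1.length := (ver_iff.1 h1).1
      have h5 := sz_listBool_le w
      have h6 : p.eval I.1.1.length ≤ p.eval (sz I) := by
        refine eval_mono p ?_
        have := length_lt_sz I.1.1
        have h7 : sz I = sz I.1 + sz I.2 + 1 := sz_pair I.1 I.2
        have h8 : sz I.1 = sz I.1.1 + sz I.1.2 + 1 := sz_pair I.1.1 I.1.2
        omega
      simp only [Polynomial.eval_add, Polynomial.eval_mul, Polynomial.eval_ofNat,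
        Polynomial.eval_one]
      omega
    · rw [h1, h2, h3]
      rfl
  · rintro ⟨w, _, hw⟩
    simp only [Bool.and_eq_true] at hw
    exact ⟨w, hw.1.1, hw.1.2, hw.2⟩

/-- The string of a query. -/
def qs (x : List Bool) (rows : List (List Bool)) (P j : ℕ) (t : ℕ × ℕ) : List Bool :=
  bits ((((x, rows), (P, (j, t))) : QR))

theorem qs_mem {V0 : List Bool → List Bool} {p : Polynomial ℕ} {x : List Bool}
    {rows : List (List Bool)} {w : List Bool} (h : Unq V0 p x rows w) (P j : ℕ) (t : ℕ × ℕ) :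
    qs x rows P j t ∈ lang (HQ V0 p) ↔ lab P t ((padc (mm p x) w).take j) = true := by
  unfold qs
  rw [bits_mem_lang]
  constructor
  · rintro ⟨w', h1, h2, h3⟩
    have := h.2.2 w' h1 h2
    subst this
    exact h3
  · intro h3
    exact ⟨w, h.1, h.2.1, h3⟩

/-- A bound for the lengths of the queries. -/
noncomputable def PNR (p : Polynomial ℕ) : Polynomial ℕ :=
  4 * Polynomial.X + 1 + ((p + 1 + 1) * (4 * (p + 1) + 2) + 1) + 3 * (4 * Polynomial.X + 1) +
    (4 * (p + 1) + 1) + 5

theorem qs_length {p : Polynomial ℕ} {x : List Bool} {rows : List (List Bool)} {b : ℕ}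
    (hb : x.length ≤ b) (h1 : rows.length ≤ mm p x + 1) (h2 : ∀ u ∈ rows, u.length = mm p x)
    {P j : ℕ} {t : ℕ × ℕ} (hP : P < 2 ^ b) (hj : j ≤ mm p x) (ht1 : t.1 < 2 ^ b)
    (ht2 : t.2 < 2 ^ b) : (qs x rows P j t).length ≤ (PNR p).eval b := by
  have h3 := sz_listBool_le x
  have h4 := sz_le_length_mul rows (4 * mm p x + 1) (fun u hu => by
    have := sz_listBool_le u
    rw [h2 u hu] at this
    exact this)
  have hm : mm p x ≤ p.eval b + 1 := by
    have := eval_mono p hb
    unfold mm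
    omega
  have h5 : rows.length * (4 * mm p x + 1 + 1) ≤ (p.eval b + 1 + 1) * (4 * (p.eval b + 1) + 2) :=
    Nat.mul_le_mul (by omega) (by omega)
  have h6 : (PNR p).eval b = 4 * b + 1 +
      ((p.eval b + 1 + 1) * (4 * (p.eval b + 1) + 2) + 1) + 3 * (4 * b + 1) +
        (4 * (p.eval b + 1) + 1) + 5 := by
    simp [PNR]
  have e1 : sz P ≤ 4 * b + 1 := by
    have := Nat.size_le.2 hP
    exact (sz_nat_le P).trans (by omega)
  have e2 : sz t.1 ≤ 4 * b + 1 := by
    have := Nat.size_le.2 ht1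
    exact (sz_nat_le t.1).trans (by omega)
  have e3 : sz t.2 ≤ 4 * b + 1 := by
    have := Nat.size_le.2 ht2
    exact (sz_nat_le t.2).trans (by omega)
  have e4 : sz j ≤ 4 * (p.eval b + 1) + 1 := by
    have := NPC.Poly.size_le_self j
    exact (sz_nat_le j).trans (by omega)
  unfold qs
  obtain ⟨t1, t2⟩ := t
  rw [bits_length, sz_pair, sz_pair, sz_pair, sz_pair, sz_pair, h6]
  simp only at e2 e3
  omega

end Pool.Agent.Helper49.RH
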